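import Mathlib
import Pool.Agent.R756.Flot.Main

/-!
# Homothety of the body of flotation and the body of buoyancy

The regular hexagon shows that a convex body whose body of flotation and body of buoyancy are
homothetic need not be an ellipsoid.
-/

set_option autoImplicit false
open MeasureTheory Set Metric
open scoped RealInnerProductSpace

namespace Pool.Agent.Results.MP_56fddc_gt.HexagonCounterexample

/-- Euclidean space `ℝⁿ`. -/
abbrev E (n : ℕ) : Type := EuclideanSpace ℝ (Fin n)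

/-- A convex body: a compact convex set with nonempty interior. -/
def IsConvexBody {n : ℕ} (K : Set (E n)) : Prop :=
  IsCompact K ∧ Convex ℝ K ∧ (interior K).Nonempty

/-- The closed half-space `{x : ⟨u, x⟩ ≥ t}` with inner normal `u`. -/
def halfSpace {n : ℕ} (u : E n) (t : ℝ) : Set (E n) := {x | t ≤ ⟪u, x⟫}

/-- The closed half-space `{x : ⟨u, x⟩ ≥ t}` (with `u ≠ 0`) is `δ`-admissible for `K`: it cuts off
volume `δ` from `K`. -/
def Admissible {n : ℕ} (K : Set (E n)) (δ : ℝ) (u : E n) (t : ℝ) : Prop :=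
  u ≠ 0 ∧ (volume (K ∩ halfSpace u t)).toReal = δ

/-- The body of flotation `F_δ(K)`: the intersection of the closures of `K \ H` over all
`δ`-admissible closed half-spaces `H`. -/
def flotationBody {n : ℕ} (K : Set (E n)) (δ : ℝ) : Set (E n) :=
  {x | ∀ (u : E n) (t : ℝ), Admissible K δ u t → x ∈ closure (K \ halfSpace u t)}

/-- The centroid of a set of positive finite volume. -/
noncomputable def centroid {n : ℕ} (A : Set (E n)) : E n := (volume A).toReal⁻¹ • ∫ x in A, x

/-- The body of buoyancy `B_δ(K)`: the convex hull of the centroids of `K ∩ H` over all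
`δ`-admissible closed half-spaces `H`. -/
noncomputable def buoyancyBody {n : ℕ} (K : Set (E n)) (δ : ℝ) : Set (E n) :=
  convexHull ℝ {c | ∃ (u : E n) (t : ℝ), Admissible K δ u t ∧ c = centroid (K ∩ halfSpace u t)}

/-- `A` and `B` are homothetic: some dilation `x ↦ c + r (x - c)` with `r > 0` maps `A` onto `B`. -/
def Homothetic {n : ℕ} (A B : Set (E n)) : Prop :=
  ∃ (c : E n) (r : ℝ), 0 < r ∧ (fun x => c + r • (x - c)) '' A = B

/-- `K` is an ellipsoid: the image of the closed unit ball under an invertible affine map. -/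
def IsEllipsoid {n : ℕ} (K : Set (E n)) : Prop :=
  ∃ f : E n ≃ᵃ[ℝ] E n, K = f '' closedBall 0 1

/-- The (affinely regular) hexagon with vertices `±(1,0)`, `±(0,1)`, `±(1,-1)`. -/
def hexagon : Set (E 2) := {x | |x 0| ≤ 1 ∧ |x 1| ≤ 1 ∧ |x 0 + x 1| ≤ 1}

theorem not_ellipsoid : ¬ IsEllipsoid hexagon := by
  rintro ⟨f, hf⟩
  have ha : (!₂[1, 0] : E 2) ∈ hexagon := by
    show |(1:ℝ)| ≤ 1 ∧ |(0:ℝ)| ≤ 1 ∧ |(1:ℝ) + 0| ≤ 1
    norm_num
  have hb : (!₂[1, -1] : E 2) ∈ hexagon := by
    show |(1:ℝ)| ≤ 1 ∧ |(-1:ℝ)| ≤ 1 ∧ |(1:ℝ) + (-1)| ≤ 1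
    norm_num
  rw [hf] at ha hb
  obtain ⟨a, ha1, ha2⟩ := ha
  obtain ⟨b, hb1, hb2⟩ := hb
  have hne : a ≠ b := by
    rintro rfl
    rw [ha2] at hb2
    have h1 : (!₂[1, 0] : E 2) 1 = (!₂[1, -1] : E 2) 1 := by rw [hb2]
    have h2 : (0:ℝ) = -1 := h1
    norm_num at h2
  have hint : (1/2:ℝ) • a + (1/2:ℝ) • b ∈ interior (closedBall (0 : E 2) 1) :=
    strictConvex_closedBall ℝ (0 : E 2) 1 ha1 hb1 hne (by norm_num) (by norm_num) (by norm_num)
  have hopen : IsOpenMap f := f.toHomeomorphOfFiniteDimensional.isOpenMap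
  have h3 := hopen.image_interior_subset _ (mem_image_of_mem f hint)
  rw [← hf] at h3
  have h4 : f ((1/2:ℝ) • a + (1/2:ℝ) • b) = !₂[1, -1/2] := by
    have h5 : (1/2:ℝ) • a + (1/2:ℝ) • b = AffineMap.lineMap a b (1/2:ℝ) := by
      rw [AffineMap.lineMap_apply_module]
      norm_num
    rw [h5]
    have h6 : f (AffineMap.lineMap a b (1/2:ℝ)) = AffineMap.lineMap (f a) (f b) (1/2:ℝ) :=
      AffineMap.apply_lineMap f.toAffineMap a b (1/2:ℝ)
    rw [h6, ha2, hb2, AffineMap.lineMap_apply_module]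
    ext i
    fin_cases i
    · show (1 - 1/2) * (1:ℝ) + 1/2 * 1 = 1
      norm_num
    · show (1 - 1/2) * (0:ℝ) + 1/2 * (-1) = -1/2
      norm_num
  rw [h4, mem_interior_iff_mem_nhds, Metric.mem_nhds_iff] at h3
  obtain ⟨ε, hε, hball⟩ := h3
  have h7 : (!₂[1 + ε/2, -1/2] : E 2) ∈ hexagon := by
    apply hball
    rw [mem_ball, dist_eq_norm]
    have h8 : (!₂[1 + ε/2, -1/2] : E 2) - !₂[1, -1/2] = EuclideanSpace.single 0 (ε/2) := by
      ext i
      fin_cases i
      · show 1 + ε/2 - 1 = _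
        simp
      · show (-1/2:ℝ) - (-1/2) = _
        simp
    rw [h8, EuclideanSpace.norm_single, Real.norm_eq_abs, abs_of_pos (by positivity)]
    linarith
  have h9 : |1 + ε/2| ≤ 1 := h7.1
  rw [abs_le] at h9
  linarith [h9.2]

/-- **The answer to the question is no.**  There are a dimension `n ≥ 2`, a convex body `K ⊂ ℝⁿ`
which is not an ellipsoid, and a volume `0 < δ < Vol K` for which the body of flotation and the
body of buoyancy are homothetic: `n = 2`, `K` the affinely regular hexagon, `δ = 1/2`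
(one sixth of the area), the ratio being `3/4`. -/
theorem result : ∃ (n : ℕ) (K : Set (E n)) (δ : ℝ), 2 ≤ n ∧ IsConvexBody K ∧ 0 < δ ∧
    δ < (volume K).toReal ∧ Homothetic (flotationBody K δ) (buoyancyBody K δ) ∧
    ¬ IsEllipsoid K := by
  refine ⟨2, hexagon, 1 / 2, le_rfl, ⟨Pool.Agent.R756.Flot.hex_compact,
    Pool.Agent.R756.Flot.hex_convex, Pool.Agent.R756.Flot.hex_interior⟩, by norm_num, ?_,
    ⟨0, 4 / 3, by norm_num, ?_⟩, not_ellipsoid⟩
  · have h : 1 ≤ (volume hexagon).toReal := Pool.Agent.R756.Flot.hex_vol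
    linarith
  · have h : flotationBody hexagon (1 / 2) =
        (fun y : E 2 => (3 / 4 : ℝ) • y) '' buoyancyBody hexagon (1 / 2) :=
      Pool.Agent.R756.Flot.flotation_eq
    rw [h, image_image]
    have h2 : (fun x : E 2 => (0 : E 2) + (4 / 3 : ℝ) • ((3 / 4 : ℝ) • x - 0)) = id := by
      funext x
      rw [zero_add, sub_zero, smul_smul]
      norm_num
    rw [h2, image_id]

end Pool.Agent.Results.MP_56fddc_gt.HexagonCounterexample
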